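import Pool.Agent.BSE.Stmts

/-! Module CER of the Bose sector theorem. -/

set_option autoImplicit false

open MeasureTheory Matrix Finset
open scoped ComplexConjugate

namespace Pool.Agent.BSE.H76

open Pool.Agent.Helper64_FR

variable {n : ℕ}

theorem haarB_prob (B : Finset (Fin n)) : IsProbabilityMeasure (haarB B) := by
  constructor
  have := @Measure.haarMeasure_self (UB B) _ _ _ _ _ ⊤
  unfold haarB
  simpa using this

/-- a column of an element of `U_B` is a unit vector -/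
theorem col_one (B : Finset (Fin n)) {b : Fin n} (hb : b ∈ B) (A : UB B) :
    ∑ j ∈ B, ‖((A : UU n) : Matrix (Fin n) (Fin n) ℂ) j b‖ ^ 2 = 1 := by
  have h1 : star ((A : UU n) : Matrix (Fin n) (Fin n) ℂ) *
      ((A : UU n) : Matrix (Fin n) (Fin n) ℂ) = 1 :=
    Matrix.mem_unitaryGroup_iff'.1 (A : UU n).2
  have h2 := congrFun (congrFun h1 b) b
  rw [Matrix.mul_apply, Matrix.one_apply_eq] at h2
  have h3 : ∀ j, star ((A : UU n) : Matrix (Fin n) (Fin n) ℂ) b j *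
      ((A : UU n) : Matrix (Fin n) (Fin n) ℂ) j b =
      ((‖((A : UU n) : Matrix (Fin n) (Fin n) ℂ) j b‖ ^ 2 : ℝ) : ℂ) := by
    intro j
    rw [Matrix.star_apply, Complex.star_def, Complex.conj_mul']
    push_cast
    rfl
  rw [Finset.sum_congr rfl fun j _ => h3 j, ← Complex.ofReal_sum] at h2
  have h4 : ∑ j, ‖((A : UU n) : Matrix (Fin n) (Fin n) ℂ) j b‖ ^ 2 = 1 := by
    exact_mod_cast h2
  rw [← h4]
  apply Finset.sum_subset (Finset.subset_univ B)
  intro j _ hj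
  have h5 : ((A : UU n) : Matrix (Fin n) (Fin n) ℂ) j b = 0 := by
    have h6 : ∀ i j, (i ∉ B ∨ j ∉ B) →
      ((A : UU n) : Matrix (Fin n) (Fin n) ℂ) i j = if i = j then 1 else 0 := A.2
    rw [h6 j b (Or.inl hj), if_neg]
    rintro rfl
    exact hj hb
  rw [h5, norm_zero]
  norm_num

/-- the sum of the squares of the deviations -/
theorem dv_sq (B : Finset (Fin n)) (hB : B.Nonempty) (y : Fin n → ℝ) :
    ∑ i, H47.dv B y i ^ 2 = ∑ i ∈ B, y i ^ 2 - (∑ i ∈ B, y i) ^ 2 / B.card := by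
  have hβ : (B.card : ℝ) ≠ 0 := by
    rw [Nat.cast_ne_zero]
    exact Finset.card_ne_zero.2 hB
  have h1 : ∑ i, H47.dv B y i ^ 2 = ∑ i ∈ B, H47.dv B y i ^ 2 := by
    symm
    apply Finset.sum_subset (Finset.subset_univ B)
    intro i _ hi
    rw [H47.dv_of_notMem hi]
    norm_num
  rw [h1, Finset.sum_congr rfl fun i hi => by rw [H47.dv_of_mem hi y]]
  have h2 : ∀ i, (y i - (∑ j ∈ B, y j) / B.card) ^ 2 =
      y i ^ 2 - 2 * ((∑ j ∈ B, y j) / B.card) * y i + ((∑ j ∈ B, y j) / B.card) ^ 2 := by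
    intro i
    ring
  rw [Finset.sum_congr rfl fun i _ => h2 i, Finset.sum_add_distrib, Finset.sum_sub_distrib,
    ← Finset.mul_sum, Finset.sum_const, nsmul_eq_mul]
  field_simp
  ring

/-- the quartic of a vector which was made constant on `B` -/
theorem gg_piece (B : Finset (Fin n)) (c : Fin n → ℝ) (V : ℝ) :
    gg (fun i => if i ∈ B then V else c i) =
      gg c - ((1 / 2) * ∑ i ∈ B, ∑ m ∈ B, (c i - c m) ^ 4 +
        ∑ m ∈ Bᶜ, (∑ i ∈ B, (c i - c m) ^ 4 - B.card * (V - c m) ^ 4)) := by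
  unfold gg
  have hsplit : ∀ f : Fin n → Fin n → ℝ, ∑ i, ∑ m, f i m =
      (∑ i ∈ B, ∑ m ∈ B, f i m + ∑ i ∈ B, ∑ m ∈ Bᶜ, f i m) +
        (∑ i ∈ Bᶜ, ∑ m ∈ B, f i m + ∑ i ∈ Bᶜ, ∑ m ∈ Bᶜ, f i m) := by
    intro f
    rw [← Finset.sum_add_sum_compl B, ← Finset.sum_add_distrib, ← Finset.sum_add_distrib]
    congr 1
    · exact Finset.sum_congr rfl fun i _ => (Finset.sum_add_sum_compl B _).symm
    · exact Finset.sum_congr rfl fun i _ => (Finset.sum_add_sum_compl B _).symm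
  rw [hsplit, hsplit]
  have e1 : ∑ i ∈ B, ∑ m ∈ B, ((if i ∈ B then V else c i) - (if m ∈ B then V else c m)) ^ 4 =
      0 := by
    apply Finset.sum_eq_zero
    intro i hi
    apply Finset.sum_eq_zero
    intro m hm
    rw [if_pos hi, if_pos hm, sub_self]
    norm_num
  have e2 : ∑ i ∈ B, ∑ m ∈ Bᶜ, ((if i ∈ B then V else c i) - (if m ∈ B then V else c m)) ^ 4 =
      ∑ m ∈ Bᶜ, B.card * (V - c m) ^ 4 := by
    rw [Finset.sum_congr rfl fun i hi => Finset.sum_congr rfl fun m hm => by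
      rw [if_pos hi, if_neg (Finset.mem_compl.1 hm)], Finset.sum_const, nsmul_eq_mul,
      Finset.mul_sum]
  have e3 : ∑ i ∈ Bᶜ, ∑ m ∈ B, ((if i ∈ B then V else c i) - (if m ∈ B then V else c m)) ^ 4 =
      ∑ m ∈ Bᶜ, B.card * (V - c m) ^ 4 := by
    refine Finset.sum_congr rfl fun i hi => ?_
    rw [Finset.sum_congr rfl fun m hm => by
      rw [if_neg (Finset.mem_compl.1 hi), if_pos hm], Finset.sum_const, nsmul_eq_mul]
    ring
  have e4 : ∑ i ∈ Bᶜ, ∑ m ∈ Bᶜ, ((if i ∈ B then V else c i) - (if m ∈ B then V else c m)) ^ 4 =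
      ∑ i ∈ Bᶜ, ∑ m ∈ Bᶜ, (c i - c m) ^ 4 := by
    exact Finset.sum_congr rfl fun i hi => Finset.sum_congr rfl fun m hm => by
      rw [if_neg (Finset.mem_compl.1 hi), if_neg (Finset.mem_compl.1 hm)]
  have e5 : ∑ i ∈ B, ∑ m ∈ Bᶜ, (c i - c m) ^ 4 = ∑ m ∈ Bᶜ, ∑ i ∈ B, (c i - c m) ^ 4 :=
    Finset.sum_comm
  have e6 : ∑ i ∈ Bᶜ, ∑ m ∈ B, (c i - c m) ^ 4 = ∑ m ∈ Bᶜ, ∑ i ∈ B, (c i - c m) ^ 4 := by
    refine Finset.sum_congr rfl fun i _ => Finset.sum_congr rfl fun m _ => ?_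
    ring
  rw [e1, e2, e3, e4, e5, e6, Finset.sum_sub_distrib]
  ring

/-- CER -/
theorem cer (mo2 : MO2Stmt) (in4 : IN4Stmt) (ce1 : CE1Stmt) : CERStmt := by
  intro n B c
  have hprob := haarB_prob B
  rcases B.eq_empty_or_nonempty with rfl | hB
  · -- both sides vanish
    have h1 : ∀ A : UU n, TB (∅ : Finset (Fin n)) A c = c := by
      intro A
      funext i
      unfold TB
      rw [dif_neg (Finset.notMem_empty i)]
    have h2 : ∫ A : UB (∅ : Finset (Fin n)), gg (TB ∅ (A : UU n) c) ∂(haarB ∅) = gg c := by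
      simp only [h1]
      rw [integral_const, probReal_univ, one_smul]
    rw [h2, sub_self]
    apply le_of_eq
    apply Finset.sum_eq_zero
    intro m _
    apply Finset.sum_eq_zero
    intro i _
    rw [H47.dv_of_notMem (Finset.notMem_empty i)]
    norm_num
  obtain ⟨b, hb⟩ : ∃ b, b = B.min' hB := ⟨_, rfl⟩
  have hbB : b ∈ B := by
    rw [hb]
    exact B.min'_mem hB
  have hβ : (0 : ℝ) < B.card := by
    rw [Nat.cast_pos]
    exact Finset.card_pos.2 hB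
  -- the function
  have hTB : ∀ A : UU n, TB B A c = fun i => if i ∈ B then
      ∑ j ∈ B, ‖(A : Matrix (Fin n) (Fin n) ℂ) j b‖ ^ 2 * c j else c i := by
    intro A
    funext i
    unfold TB
    by_cases hi : i ∈ B
    · rw [dif_pos hi, if_pos hi, hb]
    · rw [dif_neg hi, if_neg hi]
  have hV : ∀ (A : UB B) (m : Fin n),
      ∑ j ∈ B, ‖((A : UU n) : Matrix (Fin n) (Fin n) ℂ) j b‖ ^ 2 * c j - c m =
        ∑ j ∈ B, ‖((A : UU n) : Matrix (Fin n) (Fin n) ℂ) j b‖ ^ 2 * (c j - c m) := by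
    intro A m
    have h1 := col_one B hbB A
    have h2 : ∑ j ∈ B, ‖((A : UU n) : Matrix (Fin n) (Fin n) ℂ) j b‖ ^ 2 * (c j - c m) =
        ∑ j ∈ B, ‖((A : UU n) : Matrix (Fin n) (Fin n) ℂ) j b‖ ^ 2 * c j -
          (∑ j ∈ B, ‖((A : UU n) : Matrix (Fin n) (Fin n) ℂ) j b‖ ^ 2) * c m := by
      rw [Finset.sum_mul, ← Finset.sum_sub_distrib]
      exact Finset.sum_congr rfl fun j _ => by ring
    rw [h2, h1, one_mul]
  have hcont : ∀ a : Fin n → ℝ, Continuous fun A : UB B =>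
      (∑ j ∈ B, ‖((A : UU n) : Matrix (Fin n) (Fin n) ℂ) j b‖ ^ 2 * a j) ^ 4 := by
    intro a
    apply Continuous.pow
    refine continuous_finsetSum _ fun j _ => ?_
    apply Continuous.mul _ continuous_const
    apply Continuous.pow
    apply Continuous.norm
    exact (continuous_apply_apply j b).comp
      (continuous_subtype_val.comp continuous_subtype_val)
  have hint : ∀ a : Fin n → ℝ, Integrable (fun A : UB B =>
      (∑ j ∈ B, ‖((A : UU n) : Matrix (Fin n) (Fin n) ℂ) j b‖ ^ 2 * a j) ^ 4) (haarB B) :=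
    fun a => (hcont a).integrable_of_hasCompactSupport (HasCompactSupport.of_compactSpace _)
  have hgg : ∀ A : UB B, gg (TB B (A : UU n) c) =
      gg c - ((1 / 2) * ∑ i ∈ B, ∑ m ∈ B, (c i - c m) ^ 4 +
        ∑ m ∈ Bᶜ, ∑ i ∈ B, (c i - c m) ^ 4) + ∑ m ∈ Bᶜ, B.card *
          (∑ j ∈ B, ‖((A : UU n) : Matrix (Fin n) (Fin n) ℂ) j b‖ ^ 2 * (c j - c m)) ^ 4 := by
    intro A
    rw [hTB, gg_piece, Finset.sum_sub_distrib]
    have h1 : ∑ m ∈ Bᶜ, (B.card : ℝ) *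
        (∑ j ∈ B, ‖((A : UU n) : Matrix (Fin n) (Fin n) ℂ) j b‖ ^ 2 * c j - c m) ^ 4 =
        ∑ m ∈ Bᶜ, B.card *
          (∑ j ∈ B, ‖((A : UU n) : Matrix (Fin n) (Fin n) ℂ) j b‖ ^ 2 * (c j - c m)) ^ 4 :=
      Finset.sum_congr rfl fun m _ => by rw [hV A m]
    rw [h1]
    ring
  have hI : ∫ A : UB B, gg (TB B (A : UU n) c) ∂(haarB B) =
      gg c - ((1 / 2) * ∑ i ∈ B, ∑ m ∈ B, (c i - c m) ^ 4 +
        ∑ m ∈ Bᶜ, ∑ i ∈ B, (c i - c m) ^ 4) +
          ∑ m ∈ Bᶜ, B.card * q4 B (fun j => c j - c m) := by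
    simp only [hgg]
    rw [integral_add (integrable_const _)
      (integrable_finsetSum _ fun m _ => (hint fun j => c j - c m).const_mul _),
      integral_const, probReal_univ, one_smul,
      integral_finsetSum _ fun m _ => (hint fun j => c j - c m).const_mul _]
    congr 1
    refine Finset.sum_congr rfl fun m _ => ?_
    rw [integral_const_mul, mo2 n B b hbB (fun j => c j - c m)]
  rw [hI]
  -- the left side
  have hL : ∑ m, ∑ i, H47.dv B (fun j => (c j - c m) ^ 2) i ^ 2 =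
      (1 / 2) * ∑ i ∈ B, ∑ m ∈ B, (c i - c m) ^ 4 +
        ∑ m ∈ Bᶜ, (∑ i ∈ B, (c i - c m) ^ 4 - (∑ i ∈ B, (c i - c m) ^ 2) ^ 2 / B.card) := by
    rw [← Finset.sum_add_sum_compl B, ce1 n B c]
    congr 1
    refine Finset.sum_congr rfl fun m _ => ?_
    rw [dv_sq B hB]
    congr 1
    exact Finset.sum_congr rfl fun i _ => by ring
  rw [hL, Finset.sum_sub_distrib]
  have hfin : ∑ m ∈ Bᶜ, (B.card : ℝ) * q4 B (fun j => c j - c m) ≤
      ∑ m ∈ Bᶜ, (∑ i ∈ B, (c i - c m) ^ 2) ^ 2 / B.card := by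
    refine Finset.sum_le_sum fun m _ => ?_
    have h1 := in4 n B hB (fun j => c j - c m)
    calc (B.card : ℝ) * q4 B (fun j => c j - c m)
        ≤ B.card * ((∑ j ∈ B, (c j - c m) ^ 2) / B.card) ^ 2 :=
          mul_le_mul_of_nonneg_left h1 hβ.le
      _ = (∑ i ∈ B, (c i - c m) ^ 2) ^ 2 / B.card := by
          field_simp
  linarith

end Pool.Agent.BSE.H76
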