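import Pool.Agent.BSE.Stmts3

/-!
# AV3: the average of a cubic form over `U({p, q})`
-/

open MeasureTheory Matrix Finset
open scoped ComplexConjugate

namespace Pool.Agent.BSE.H76

open Pool.Agent.BSE

variable {n : ℕ}

theorem rp_comm (p q : Fin n) (G : Fin n → Fin n → ℝ) (i j : Fin n) :
    rp p q (fun a => rp p q (fun b => G a b) j) i =
      rp p q (fun b => rp p q (fun a => G a b) i) j := by
  unfold rp
  split_ifs <;> ring

theorem sum_rep (p q : Fin n) (hpq : p ≠ q) (u : ℝ) (c g : Fin n → ℝ) :
    ∑ a, g a * rep p q u c a = ∑ a, tw p q u a * rp p q g a * c a := by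
  rw [← sub_eq_zero, ← Finset.sum_sub_distrib]
  rw [← Finset.sum_subset (Finset.subset_univ ({p, q} : Finset (Fin n)))]
  · rw [Finset.sum_pair hpq]
    simp only [rep, tw, rp, hpq.symm, if_true, if_false, true_or, or_true]
    ring
  · intro x _ hx
    have h1 : x ≠ p := by
      rintro rfl
      exact hx (by simp)
    have h2 : x ≠ q := by
      rintro rfl
      exact hx (by simp)
    simp only [rep, tw, rp, h1, h2, if_false, or_self]
    ring

theorem cub_rep (p q : Fin n) (hpq : p ≠ q) (u : ℝ) (c : Fin n → ℝ)
    (F : Fin n → Fin n → Fin n → ℝ) :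
    cub F (rep p q u c) = ∑ i, ∑ j, ∑ k, tw p q u i * tw p q u j * tw p q u k *
      (rp p q (fun a => rp p q (fun b => rp p q (fun d => F a b d) k) j) i *
        (c i * c j * c k)) := by
  have e1 : cub F (rep p q u c) =
      ∑ i, ∑ j, (∑ k, F i j k * rep p q u c k) * rep p q u c j * rep p q u c i := by
    unfold cub
    refine Finset.sum_congr rfl fun i _ => Finset.sum_congr rfl fun j _ => ?_
    rw [Finset.sum_mul, Finset.sum_mul]
    refine Finset.sum_congr rfl fun k _ => ?_
    ring
  have e2 : ∀ i, ∑ j, (∑ k, F i j k * rep p q u c k) * rep p q u c j =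
      ∑ k, (tw p q u k * c k) * ∑ j, tw p q u j *
        rp p q (fun b => rp p q (fun d => F i b d) k) j * c j := by
    intro i
    have : ∀ k, (tw p q u k * c k) * ∑ j, tw p q u j *
        rp p q (fun b => rp p q (fun d => F i b d) k) j * c j =
        (tw p q u k * c k) * ∑ j, rp p q (fun d => F i j d) k * rep p q u c j := by
      intro k
      rw [sum_rep p q hpq u c (fun b => rp p q (fun d => F i b d) k)]
    rw [Finset.sum_congr rfl fun k _ => this k]
    have e2a : ∀ j, ∑ k, F i j k * rep p q u c k =
        ∑ k, tw p q u k * rp p q (fun d => F i j d) k * c k :=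
      fun j => sum_rep p q hpq u c (fun d => F i j d)
    simp_rw [e2a, Finset.sum_mul, Finset.mul_sum]
    rw [Finset.sum_comm]
    refine Finset.sum_congr rfl fun k _ => Finset.sum_congr rfl fun j _ => ?_
    ring
  have e3 : cub F (rep p q u c) =
      ∑ k, ∑ j, (tw p q u k * c k) * (tw p q u j * c j) * ∑ i,
        rp p q (fun b => rp p q (fun d => F i b d) k) j * rep p q u c i := by
    rw [e1]
    have e0 : ∀ i, ∑ j, (∑ k, F i j k * rep p q u c k) * rep p q u c j * rep p q u c i =
        ∑ k, ∑ j, (tw p q u k * c k) * (tw p q u j *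
        rp p q (fun b => rp p q (fun d => F i b d) k) j * c j) * rep p q u c i := by
      intro i
      rw [← Finset.sum_mul, e2, Finset.sum_mul]
      refine Finset.sum_congr rfl fun k _ => ?_
      rw [Finset.mul_sum, Finset.sum_mul]
    rw [Finset.sum_congr rfl fun i _ => e0 i]
    simp_rw [Finset.mul_sum]
    rw [Finset.sum_comm]
    refine Finset.sum_congr rfl fun k _ => ?_
    rw [Finset.sum_comm]
    refine Finset.sum_congr rfl fun j _ => Finset.sum_congr rfl fun i _ => ?_
    ring
  rw [e3]
  have e4 : ∀ k j, ∑ i, rp p q (fun b => rp p q (fun d => F i b d) k) j * rep p q u c i =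
      ∑ i, tw p q u i *
        rp p q (fun a => rp p q (fun b => rp p q (fun d => F a b d) k) j) i * c i := by
    intro k j
    rw [sum_rep p q hpq u c (fun a => rp p q (fun b => rp p q (fun d => F a b d) k) j)]
  simp_rw [e4, Finset.mul_sum]
  rw [Finset.sum_comm]
  have e5 : ∀ j, ∑ k, ∑ i, (tw p q u k * c k) * (tw p q u j * c j) * (tw p q u i *
        rp p q (fun a => rp p q (fun b => rp p q (fun d => F a b d) k) j) i * c i) =
      ∑ i, ∑ k, tw p q u i * tw p q u j * tw p q u k *
      (rp p q (fun a => rp p q (fun b => rp p q (fun d => F a b d) k) j) i *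
        (c i * c j * c k)) := by
    intro j
    rw [Finset.sum_comm]
    refine Finset.sum_congr rfl fun i _ => Finset.sum_congr rfl fun k _ => ?_
    ring
  rw [Finset.sum_congr rfl fun j _ => e5 j, Finset.sum_comm]

theorem continuous_tw (p q i : Fin n) : Continuous fun u : ℝ => tw p q u i := by
  unfold tw
  split_ifs
  · exact continuous_id
  · exact continuous_const.sub continuous_id
  · exact continuous_const

theorem sym_PT (p q : Fin n) (F : Fin n → Fin n → Fin n → ℝ) (hF : Sym3 F) :
    Sym3 (PT p q F) := by
  refine ⟨fun i j k => ?_, fun i j k => ?_⟩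
  · unfold PT
    have h1 : (fun u : ℝ => tw p q u i * tw p q u j * tw p q u k) =
        fun u : ℝ => tw p q u j * tw p q u i * tw p q u k := by
      funext u
      ring
    rw [h1, rp_comm p q (fun a b => rp p q (fun d => F a b d) k) i j]
    have h2 : (fun b => rp p q (fun a => rp p q (fun d => F a b d) k) i) =
        fun b => rp p q (fun a => rp p q (fun d => F b a d) k) i := by
      funext b
      simp_rw [fun a d => hF.1 a b d]
    rw [h2]
  · unfold PT
    have h1 : (fun u : ℝ => tw p q u i * tw p q u j * tw p q u k) =
        fun u : ℝ => tw p q u i * tw p q u k * tw p q u j := by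
      funext u
      ring
    have h2 : (fun a => rp p q (fun b => rp p q (fun d => F a b d) k) j) =
        fun a => rp p q (fun b => rp p q (fun d => F a b d) j) k := by
      funext a
      rw [rp_comm p q (fun b d => F a b d) j k]
      have : (fun b => rp p q (fun d => F a d b) j) = fun b => rp p q (fun d => F a b d) j := by
        funext b
        simp_rw [fun d => hF.2 a d b]
      rw [this]
    rw [h1, h2]

/-- AV3. -/
theorem av3 : AV3Stmt := by
  intro n p q hpq F hF
  refine ⟨sym_PT p q F hF, fun c => ?_⟩
  have hc : ∀ (i j k : Fin n) (r : ℝ), IntervalIntegrable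
      (fun u : ℝ => tw p q u i * tw p q u j * tw p q u k * r) volume 0 1 := by
    intro i j k r
    exact ((((continuous_tw p q i).mul (continuous_tw p q j)).mul
      (continuous_tw p q k)).mul continuous_const).intervalIntegrable 0 1
  have h1 : (fun u : ℝ => cub F (rep p q u c)) = fun u : ℝ =>
      ∑ i, ∑ j, ∑ k, tw p q u i * tw p q u j * tw p q u k *
      (rp p q (fun a => rp p q (fun b => rp p q (fun d => F a b d) k) j) i *
        (c i * c j * c k)) := by
    funext u
    exact cub_rep p q hpq u c F
  rw [h1]
  unfold cub PT
  rw [intervalIntegral.integral_finsetSum]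
  · refine Finset.sum_congr rfl fun i _ => ?_
    rw [intervalIntegral.integral_finsetSum]
    · refine Finset.sum_congr rfl fun j _ => ?_
      rw [intervalIntegral.integral_finsetSum]
      · refine Finset.sum_congr rfl fun k _ => ?_
        rw [intervalIntegral.integral_mul_const]
        ring
      · intro k _
        exact hc i j k _
    · intro j _
      exact (continuous_finsetSum _ fun k _ => ((((continuous_tw p q i).mul
        (continuous_tw p q j)).mul (continuous_tw p q k)).mul
        continuous_const)).intervalIntegrable 0 1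
  · intro i _
    exact (continuous_finsetSum _ fun j _ => continuous_finsetSum _ fun k _ =>
      ((((continuous_tw p q i).mul (continuous_tw p q j)).mul (continuous_tw p q k)).mul
        continuous_const)).intervalIntegrable 0 1

end Pool.Agent.BSE.H76
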