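import Pool.Agent.BSE.Stmts4
import Pool.Agent.Helper6_BSE.EXI

/-!
# EX2: existence of the representation `RowSpace n k`
(tuple version of `Helper6_BSE/EXI.lean`)
-/

set_option autoImplicit false

open MeasureTheory Matrix Finset
open scoped ComplexConjugate

namespace Pool.Agent.BSE.H76

open Pool.Agent.BSE Pool.Agent.Helper64_FR

open Pool.Agent.BSE.H6 (cont_cj cj_mul cj_one)

variable {n k : ℕ}

/-- tuples of matrices -/
abbrev MT (n k : ℕ) : Type := Fin k → Matrix (Fin n) (Fin n) ℂ

/-- monomials -/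
def monT (P : Fin k → Fin n × Fin n) : MT n k → ℂ := fun M => ∏ s, M s (P s).1 (P s).2

theorem rowFun_mem (u : Fin n → ℂ) (v : Fin k → Fin n → ℂ) :
    rowFun u v ∈ Submodule.span ℂ (Set.range (monT (n := n) (k := k))) := by
  have h1 : rowFun u v = ∑ P : Fin k → Fin n × Fin n,
      (∏ s, (conj (v s (P s).1) * u (P s).2)) • monT P := by
    funext M
    rw [Finset.sum_apply]
    have h2 : ∀ s, bil u (v s) (M s) = ∑ a : Fin n × Fin n,
        (conj (v s a.1) * u a.2) * M s a.1 a.2 := by
      intro s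
      unfold bil
      rw [Fintype.sum_prod_type]
      exact Finset.sum_congr rfl fun i _ => Finset.sum_congr rfl fun j _ => by ring
    show ∏ s, bil u (v s) (M s) = _
    simp_rw [h2]
    rw [Fintype.prod_sum (fun (s : Fin k) (a : Fin n × Fin n) =>
      (conj (v s a.1) * u a.2) * M s a.1 a.2)]
    refine Finset.sum_congr rfl fun P _ => ?_
    rw [Finset.prod_mul_distrib]
    rfl
  rw [h1]
  exact Submodule.sum_mem _ fun P _ => Submodule.smul_mem _ _ (Submodule.subset_span ⟨P, rfl⟩)

instance instFinRow (n k : ℕ) : FiniteDimensional ℂ (RowSpace n k) := by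
  have h1 : RowSpace n k ≤ Submodule.span ℂ (Set.range (monT (n := n) (k := k))) := by
    unfold RowSpace
    rw [Submodule.span_le]
    rintro _ ⟨u, v, _, rfl⟩
    exact rowFun_mem u v
  have : FiniteDimensional ℂ (Submodule.span ℂ (Set.range (monT (n := n) (k := k)))) :=
    FiniteDimensional.span_of_finite ℂ (Set.finite_range _)
  exact Submodule.finiteDimensional_of_le h1

/-- conjugation of tuples -/
def cjT (g : UU n) (M : MT n k) : MT n k := fun s => Pool.Agent.BSE.H6.cj g (M s)

theorem cjT_one (M : MT n k) : cjT (1 : UU n) M = M := funext fun s => cj_one (M s)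

theorem cjT_mul (g h : UU n) (M : MT n k) : cjT (g * h) M = cjT h (cjT g M) :=
  funext fun s => cj_mul g h (M s)

/-- the action on functions -/
noncomputable def actT (g : UU n) : (MT n k → ℂ) →ₗ[ℂ] (MT n k → ℂ) :=
  LinearMap.funLeft ℂ ℂ (cjT g)

theorem actT_apply (g : UU n) (Φ : MT n k → ℂ) (M : MT n k) : actT g Φ M = Φ (cjT g M) := rfl

theorem bil_eq (u v : Fin n → ℂ) (M : Matrix (Fin n) (Fin n) ℂ) :
    bil u v M = star v ⬝ᵥ (M *ᵥ u) := by
  unfold bil
  rw [dotProduct]
  refine Finset.sum_congr rfl fun i _ => ?_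
  rw [Matrix.mulVec, dotProduct, Finset.mul_sum]
  refine Finset.sum_congr rfl fun j _ => ?_
  rw [Pi.star_apply, Complex.star_def]
  ring

theorem inv_val (g : UU n) : ((g⁻¹ : UU n) : Matrix (Fin n) (Fin n) ℂ) =
    (g : Matrix (Fin n) (Fin n) ℂ)ᴴ := rfl

theorem bil_cj (g : UU n) (u v : Fin n → ℂ) (M : Matrix (Fin n) (Fin n) ℂ) :
    bil u v (Pool.Agent.BSE.H6.cj g M) =
      bil ((g : Matrix (Fin n) (Fin n) ℂ) *ᵥ u) ((g : Matrix (Fin n) (Fin n) ℂ) *ᵥ v) M := by
  rw [bil_eq, bil_eq]
  unfold Pool.Agent.BSE.H6.cj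
  rw [inv_val, Matrix.star_mulVec, ← Matrix.mulVec_mulVec, ← Matrix.mulVec_mulVec,
    Matrix.dotProduct_mulVec]

theorem perp_act (g : UU n) (u v : Fin n → ℂ) (h : ∑ i, conj (v i) * u i = 0) :
    ∑ i, conj (((g : Matrix (Fin n) (Fin n) ℂ) *ᵥ v) i) *
      ((g : Matrix (Fin n) (Fin n) ℂ) *ᵥ u) i = 0 := by
  have h1 : ∀ a b : Fin n → ℂ, ∑ i, conj (a i) * b i = star a ⬝ᵥ b := fun a b => rfl
  rw [h1] at h ⊢
  rw [Matrix.star_mulVec, ← Matrix.dotProduct_mulVec, Matrix.mulVec_mulVec]
  have h2 : (g : Matrix (Fin n) (Fin n) ℂ)ᴴ * (g : Matrix (Fin n) (Fin n) ℂ) = 1 := by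
    have := g.2
    rw [Matrix.mem_unitaryGroup_iff'] at this
    exact this
  rw [h2, Matrix.one_mulVec, h]

theorem actT_mem (g : UU n) : ∀ Φ ∈ RowSpace n k, actT g Φ ∈ RowSpace n k := by
  intro Φ hΦ
  unfold RowSpace at hΦ ⊢
  induction hΦ using Submodule.span_induction with
  | mem x hx =>
    obtain ⟨u, v, h, rfl⟩ := hx
    apply Submodule.subset_span
    refine ⟨(g : Matrix (Fin n) (Fin n) ℂ) *ᵥ u, fun s => (g : Matrix (Fin n) (Fin n) ℂ) *ᵥ v s,
      fun s => perp_act g u (v s) (h s), ?_⟩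
    funext M
    rw [actT_apply]
    show ∏ s, bil u (v s) (Pool.Agent.BSE.H6.cj g (M s)) = ∏ s, bil _ _ (M s)
    exact Finset.prod_congr rfl fun s _ => bil_cj g u (v s) (M s)
  | zero => rw [map_zero]; exact Submodule.zero_mem _
  | add x y _ _ hx hy => rw [map_add]; exact Submodule.add_mem _ hx hy
  | smul a x _ hx => rw [map_smul]; exact Submodule.smul_mem _ _ hx

/-- the action on the span -/
noncomputable def rsT (n k : ℕ) (g : UU n) : RowSpace n k →ₗ[ℂ] RowSpace n k :=
  (actT g).restrict (actT_mem g)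

theorem rsT_apply (g : UU n) (Φ : RowSpace n k) (M : MT n k) :
    (rsT n k g Φ : MT n k → ℂ) M = (Φ : MT n k → ℂ) (cjT g M) := rfl

theorem contT_of_mem : ∀ Φ ∈ RowSpace n k, Continuous Φ := by
  intro Φ hΦ
  unfold RowSpace at hΦ
  induction hΦ using Submodule.span_induction with
  | mem x hx =>
    obtain ⟨u, v, _, rfl⟩ := hx
    unfold rowFun bil
    refine continuous_finsetProd _ fun s _ => continuous_finsetSum _ fun i _ =>
      continuous_finsetSum _ fun j _ => ?_
    have h1 : Continuous fun M : MT n k => M s i j :=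
      (continuous_apply_apply i j).comp (continuous_apply s)
    exact (continuous_const.mul h1).mul continuous_const
  | zero => exact continuous_const
  | add x y _ _ hx hy => exact hx.add hy
  | smul a x _ hx => exact continuous_const.mul hx

theorem contT_cj (M : MT n k) : Continuous fun g : UU n => cjT g M :=
  continuous_pi fun s => cont_cj (M s)

/-- the matrix representation -/
noncomputable def RRT (n k : ℕ) : UU n →* Matrix (Fin (Module.finrank ℂ (RowSpace n k)))
    (Fin (Module.finrank ℂ (RowSpace n k))) ℂ where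
  toFun g := LinearMap.toMatrix (Module.finBasis ℂ (RowSpace n k))
    (Module.finBasis ℂ (RowSpace n k)) (rsT n k g)
  map_one' := by
    have h1 : rsT n k (1 : UU n) = LinearMap.id := by
      ext Φ M
      rw [rsT_apply, cjT_one]
      rfl
    rw [h1, LinearMap.toMatrix_id]
  map_mul' g h := by
    have h1 : rsT n k (g * h) = (rsT n k g).comp (rsT n k h) := by
      ext Φ M
      rw [rsT_apply, cjT_mul]
      rfl
    rw [h1, LinearMap.toMatrix_comp _ (Module.finBasis ℂ (RowSpace n k))]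

theorem RRT_cont (n k : ℕ) : Continuous fun g : UU n => RRT n k g := by
  refine continuous_matrix fun i j => ?_
  have h1 : ∀ g : UU n, RRT n k g i j = (Module.finBasis ℂ (RowSpace n k)).coord i
      (rsT n k g (Module.finBasis ℂ (RowSpace n k) j)) := by
    intro g
    show LinearMap.toMatrix _ _ (rsT n k g) i j = _
    rw [LinearMap.toMatrix_apply]
    rfl
  simp only [h1]
  refine (LinearMap.continuous_of_finiteDimensional _).comp ?_
  refine continuous_induced_rng.2 (continuous_pi fun M => ?_)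
  have h2 : Continuous ((Module.finBasis ℂ (RowSpace n k) j : RowSpace n k) : MT n k → ℂ) :=
    contT_of_mem _ (Submodule.coe_mem _)
  exact h2.comp (contT_cj M)

theorem finrank_pos' (hn : 2 ≤ n) : 0 < Module.finrank ℂ (RowSpace n k) := by
  have i0 : (⟨0, by omega⟩ : Fin n) ≠ ⟨1, by omega⟩ := by
    intro h
    have := congrArg Fin.val h
    simp at this
  set u : Fin n → ℂ := Pi.single ⟨0, by omega⟩ 1 with hu
  set v : Fin k → Fin n → ℂ := fun _ => Pi.single ⟨1, by omega⟩ 1 with hv
  have hv1 : ∀ s i, i ≠ (⟨1, by omega⟩ : Fin n) → v s i = 0 := fun s i hi =>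
    Pi.single_eq_of_ne hi 1
  have hv0 : ∀ s, v s ⟨1, by omega⟩ = 1 := fun s => Pi.single_eq_same _ _
  have hmem : rowFun u v ∈ RowSpace n k := by
    apply Submodule.subset_span
    refine ⟨u, v, fun s => ?_, rfl⟩
    refine Finset.sum_eq_zero fun i _ => ?_
    by_cases hi : i = ⟨0, by omega⟩
    · subst hi
      rw [hv1 s _ i0, map_zero, zero_mul]
    · rw [hu, Pi.single_eq_of_ne hi, mul_zero]
  have hne : (⟨rowFun u v, hmem⟩ : RowSpace n k) ≠ 0 := by
    intro h
    have h1 : rowFun u v = 0 := congrArg Subtype.val h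
    have h2 := congrFun h1 (fun _ => Matrix.of fun _ _ => (1 : ℂ))
    have h3 : rowFun u v (fun _ => Matrix.of fun _ _ => (1 : ℂ)) = 1 := by
      unfold rowFun bil
      refine Finset.prod_eq_one fun s _ => ?_
      rw [Finset.sum_eq_single ⟨1, by omega⟩, Finset.sum_eq_single ⟨0, by omega⟩]
      · rw [hv0 s, hu, Pi.single_eq_same]
        simp
      · intro j _ hj
        rw [hu, Pi.single_eq_of_ne hj, mul_zero]
      · simp
      · intro i _ hi
        refine Finset.sum_eq_zero fun j _ => ?_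
        rw [hv1 s _ hi, map_zero, zero_mul, zero_mul]
      · simp
    rw [h3] at h2
    exact one_ne_zero h2
  exact Module.finrank_pos_iff_exists_ne_zero.2 ⟨_, hne⟩

/-- EX2. -/
theorem ex2 : EX2Stmt := by
  intro n k hn
  obtain ⟨ρ, e, S, S', h1, h2, h3⟩ := Pool.Agent.BSE.H90.uni n _ (RRT n k) (RRT_cont n k)
  obtain ⟨dim, hom, cont⟩ := ρ
  dsimp only at e
  subst e
  have h3' : ∀ g : UU n, (URep.mk (Module.finrank ℂ (RowSpace n k)) hom cont).mat g =
      S * RRT n k g * S' := fun g => h3 g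
  refine ⟨URep.mk (Module.finrank ℂ (RowSpace n k)) hom cont, finrank_pos' hn,
    (RowSpace n k).subtype ∘ₗ (Module.finBasis ℂ (RowSpace n k)).equivFun.symm.toLinearMap ∘ₗ
      (Matrix.mulVecLin S'), ?_, ?_, ?_⟩
  · intro v w hvw
    have h4 := Subtype.val_injective hvw
    have h5 : S' *ᵥ v = S' *ᵥ w := (Module.finBasis ℂ (RowSpace n k)).equivFun.symm.injective h4
    have h6 : S *ᵥ (S' *ᵥ v) = S *ᵥ (S' *ᵥ w) := by rw [h5]
    rwa [Matrix.mulVec_mulVec, Matrix.mulVec_mulVec, h1, Matrix.one_mulVec,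
      Matrix.one_mulVec] at h6
  · intro v
    exact Submodule.coe_mem _
  · intro g v M
    have h4 : ∀ x : Fin (Module.finrank ℂ (RowSpace n k)) → ℂ,
        (Module.finBasis ℂ (RowSpace n k)).equivFun.symm (RRT n k g *ᵥ x) =
        rsT n k g ((Module.finBasis ℂ (RowSpace n k)).equivFun.symm x) := by
      intro x
      rw [LinearEquiv.symm_apply_eq]
      have h5 := LinearMap.toMatrix_mulVec_repr (Module.finBasis ℂ (RowSpace n k))
        (Module.finBasis ℂ (RowSpace n k)) (rsT n k g)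
        ((Module.finBasis ℂ (RowSpace n k)).equivFun.symm x)
      have h6 : ⇑((Module.finBasis ℂ (RowSpace n k)).repr
          ((Module.finBasis ℂ (RowSpace n k)).equivFun.symm x)) = x :=
        (Module.finBasis ℂ (RowSpace n k)).equivFun.apply_symm_apply x
      rw [h6] at h5
      exact h5
    show ((Module.finBasis ℂ (RowSpace n k)).equivFun.symm (S' *ᵥ
      ((URep.mk (Module.finrank ℂ (RowSpace n k)) hom cont).mat g *ᵥ v)) : MT n k → ℂ) M =
      ((Module.finBasis ℂ (RowSpace n k)).equivFun.symm (S' *ᵥ v) : MT n k → ℂ) (cjT g M)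
    have h7 : S' *ᵥ ((URep.mk (Module.finrank ℂ (RowSpace n k)) hom cont).mat g *ᵥ v) =
        RRT n k g *ᵥ (S' *ᵥ v) := by
      rw [h3' g, Matrix.mulVec_mulVec, Matrix.mulVec_mulVec]
      congr 1
      rw [← Matrix.mul_assoc, ← Matrix.mul_assoc, h2, Matrix.one_mul]
    rw [h7, h4]
    rfl

end Pool.Agent.BSE.H76
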