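import Pool.Agent.BSE.Stmts4
import Pool.Agent.Helper69_BSE.Ndg

/-!
# ND2: a vector fixed by the torus with vanishing diagonal values is zero
(tuple version of `Helper69_BSE/Ndg.lean`)
-/

open MeasureTheory Matrix Finset
open scoped ComplexConjugate

namespace Pool.Agent.BSE.H76

open Pool.Agent.Helper64_FR Pool.Agent.BSE Pool.Agent.BSE.H69

theorem nd2 (sp2 : SP2Stmt) : ND2Stmt := by
  intro n k ρ T hT v hfix hdiag
  obtain ⟨N, a, u, v', h0, hs⟩ := sp2 n k (T v) (hT.mem v)
  have h1 : ∀ I : Fin k → Fin n, ∑ t, a t * ∏ s, (conj (v' t s (I s)) * u t (I s)) = 0 := by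
    intro I
    rw [← hdiag (fun s => Pi.single (I s) 1), hs]
    refine Finset.sum_congr rfl fun t _ => ?_
    congr 1
    refine Finset.prod_congr rfl fun s _ => ?_
    unfold bil dg
    rw [Finset.sum_eq_single (I s)]
    · rw [Finset.sum_eq_single (I s)]
      · rw [Matrix.diagonal_apply_eq, Pi.single_eq_same]
        simp
      · intro j _ hj
        rw [Matrix.diagonal_apply_ne _ hj.symm]
        simp
      · simp
    · intro i _ hi
      refine Finset.sum_eq_zero fun j _ => ?_
      by_cases hij : i = j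
      · subst hij
        rw [Matrix.diagonal_apply_eq, Pi.single_eq_of_ne hi]
        simp
      · rw [Matrix.diagonal_apply_ne _ hij]
        simp
    · simp
  set z : ℂ := Complex.exp (2 * Real.pi * Complex.I / ((k + 1 : ℕ) : ℂ)) with hzdef
  have hz : IsPrimitiveRoot z (k + 1) := Complex.isPrimitiveRoot_exp (k + 1) (Nat.succ_ne_zero k)
  have hzn : ‖z‖ = 1 := hz.norm'_eq_one (Nat.succ_ne_zero k)
  have hzp : ∀ (e : Fin n → Fin (k + 1)) (i : Fin n), ‖z ^ (e i : ℕ)‖ = 1 := by
    intro e i
    rw [norm_pow, hzn, one_pow]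
  have hinv : ∀ (e : Fin n → Fin (k + 1)) (M : Fin k → Matrix (Fin n) (Fin n) ℂ),
      T v M = ∑ t, a t * ∏ s, ∑ ij : Fin n × Fin n, conj (v' t s ij.1) * conj (z ^ (e ij.1 : ℕ)) *
        M s ij.1 ij.2 * z ^ (e ij.2 : ℕ) * u t ij.2 := by
    intro e M
    have h2 := hT.equiv (DD _ (hzp e)) v M
    rw [fix_DD ρ v hfix Finset.univ _ (hzp e) (fun i hi => absurd (Finset.mem_univ i) hi)] at h2
    rw [h2, hs, DD_val, DD_inv_val]
    refine Finset.sum_congr rfl fun t _ => ?_
    congr 1
    refine Finset.prod_congr rfl fun s _ => ?_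
    unfold bil
    rw [Fintype.sum_prod_type]
    refine Finset.sum_congr rfl fun i _ => Finset.sum_congr rfl fun j _ => ?_
    rw [Matrix.mul_diagonal, Matrix.diagonal_mul]
    ring
  have key : ∀ M, T v M = 0 := by
    intro M
    have h3 : ∑ e : Fin n → Fin (k + 1), T v M = 0 := by
      have e1 : ∀ e : Fin n → Fin (k + 1), T v M = ∑ w : Fin k → Fin n × Fin n,
          (∏ s, M s (w s).1 (w s).2) *
          ((∏ s, (conj (z ^ (e (w s).1 : ℕ)) * z ^ (e (w s).2 : ℕ))) *
          ∑ t, a t * ((∏ s, conj (v' t s (w s).1)) * ∏ s, u t (w s).2)) := by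
        intro e
        rw [hinv e M]
        have e2 : ∀ t, ∏ s, ∑ ij : Fin n × Fin n, conj (v' t s ij.1) *
            conj (z ^ (e ij.1 : ℕ)) * M s ij.1 ij.2 * z ^ (e ij.2 : ℕ) * u t ij.2 =
            ∑ w : Fin k → Fin n × Fin n, ∏ s, (conj (v' t s (w s).1) *
            conj (z ^ (e (w s).1 : ℕ)) * M s (w s).1 (w s).2 * z ^ (e (w s).2 : ℕ) *
            u t (w s).2) := by
          intro t
          exact Fintype.prod_sum (fun (s : Fin k) (ij : Fin n × Fin n) => conj (v' t s ij.1) *
            conj (z ^ (e ij.1 : ℕ)) * M s ij.1 ij.2 * z ^ (e ij.2 : ℕ) * u t ij.2)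
        simp only [e2, Finset.mul_sum]
        rw [Finset.sum_comm]
        refine Finset.sum_congr rfl fun w _ => Finset.sum_congr rfl fun t _ => ?_
        simp only [Finset.prod_mul_distrib]
        ring
      rw [Finset.sum_congr rfl fun e _ => e1 e, Finset.sum_comm]
      refine Finset.sum_eq_zero fun w _ => ?_
      rw [← Finset.mul_sum, ← Finset.sum_mul]
      by_cases hw : mu (fun s => (w s).1) = mu (fun s => (w s).2)
      · have h4 : ∑ t, a t * ((∏ s, conj (v' t s (w s).1)) * ∏ s, u t (w s).2) = 0 := by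
          rw [← h1 (fun s => (w s).1)]
          refine Finset.sum_congr rfl fun t _ => ?_
          rw [Finset.prod_mul_distrib, prod_word (fun s => (w s).2) (fun i => u t i), ← hw,
            ← prod_word (fun s => (w s).1) (fun i => u t i)]
        rw [h4, mul_zero, mul_zero]
      · rw [avg_words (Nat.lt_succ_self k) z hz (fun s => (w s).1) (fun s => (w s).2) hw, zero_mul,
          mul_zero]
    rw [Finset.sum_const, nsmul_eq_mul] at h3
    refine (mul_eq_zero.1 h3).resolve_left ?_
    refine Nat.cast_ne_zero.2 ?_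
    rw [Finset.card_univ, Fintype.card_fun]
    simp
  apply hT.inj
  rw [map_zero]
  funext M
  exact key M

end Pool.Agent.BSE.H76
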